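import Pool.Agent.H55.LAM.Cls

open Polynomial Pool.Agent.LAM55

namespace Pool.Agent.Results.MP_98db6a_an.Classification

/-- Polynomials `h` of degree at most four, or with at most two nonreal zeros, positive at the
nonnegative integers: the reciprocals `1/h(k)` form a `λ`-sequence iff `h` has a negative real zero
which is at least the real part of every complex zero. -/
theorem result (h : ℝ[X]) (hd : 0 < h.natDegree) (hpos : ∀ k : ℕ, 0 < h.eval (k : ℝ))
    (hc : h.natDegree ≤ 4 ∨
      Multiset.card ((h.map (algebraMap ℝ ℂ)).roots.filter (fun z => z.im ≠ 0)) ≤ 2) :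
    IsLambda (fun k => 1 / h.eval (k : ℝ)) ↔
      ∃ ρ : ℝ, ρ < 0 ∧ h.eval ρ = 0 ∧ ∀ z : ℂ, aeval z h = 0 → z.re ≤ ρ :=
  cls h hd hpos hc

end Pool.Agent.Results.MP_98db6a_an.Classification
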