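import Pool.Agent.H55.LAM.CM

open Polynomial MeasureTheory Set Pool.Agent.LAM55

namespace Pool.Agent.Results.MP_98db6a_an.Criterion

/-- Criterion for all polynomials `h` positive at the nonnegative integers: `1/h(k)` is a
`λ`-sequence iff the zeros lie in the open left half plane and the inverse Laplace transform `g` of
`1/h` is nonnegative, iff `h > 0` on `[0,∞)` and `1/h` is completely monotone on `[0,∞)`. -/
theorem result (h : ℝ[X]) (hd : 0 < h.natDegree) (hpos : ∀ k : ℕ, 0 < h.eval (k : ℝ)) :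
    ∃ g : ℝ → ℝ, Continuous g ∧
      (∀ s : ℝ, (∀ z : ℂ, aeval z h = 0 → z.re < s) →
        IntegrableOn (fun u : ℝ => Real.exp (-s * u) * g u) (Ioi 0) ∧
        ∫ u in Ioi (0:ℝ), Real.exp (-s * u) * g u = 1 / h.eval s) ∧
      List.TFAE [IsLambda (fun k => 1 / h.eval (k : ℝ)),
        (∀ z : ℂ, aeval z h = 0 → z.re < 0) ∧ ∀ u : ℝ, 0 < u → 0 ≤ g u,
        (∀ x : ℝ, 0 ≤ x → 0 < h.eval x) ∧
          ∀ (n : ℕ) (x : ℝ), 0 ≤ x → 0 ≤ (-1) ^ n * iteratedDeriv n (fun y => 1 / h.eval y) x] :=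
  crit3 h hd hpos

end Pool.Agent.Results.MP_98db6a_an.Criterion
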