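import Pool.Agent.H55.LAM.Nec2

open Polynomial Pool.Agent.LAM55

namespace Pool.Agent.Results.MP_98db6a_an.DominantZero

/-- Necessary condition in every degree: if `1/h(k)` is a `λ`-sequence then `h` has a negative real
zero `ρ` such that `h > 0` on `(ρ,∞)` and `|h(σ + iτ)| ≥ h(σ)` for `σ > ρ`; in particular `Re z ≤ ρ`
for every zero `z`, with the multiplicity of `z` at most that of `ρ` when `Re z = ρ`. -/
theorem result (h : ℝ[X]) (hd : 0 < h.natDegree) (hpos : ∀ k : ℕ, 0 < h.eval (k : ℝ))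
    (hl : IsLambda (fun k => 1 / h.eval (k : ℝ))) :
    ∃ ρ : ℝ, ρ < 0 ∧ h.eval ρ = 0 ∧
      (∀ σ : ℝ, ρ < σ → 0 < h.eval σ ∧
        ∀ τ : ℝ, h.eval σ ≤ ‖aeval ((σ : ℂ) + τ * Complex.I) h‖) ∧
      ∀ z : ℂ, aeval z h = 0 → z.re ≤ ρ ∧
        (z.re = ρ → rootMultiplicity z (h.map (algebraMap ℝ ℂ)) ≤ rootMultiplicity ρ h) := by
  obtain ⟨ρ, h1, h2, h3⟩ := nec_ridge h hd hpos hl
  refine ⟨ρ, h1, h2, h3, ?_⟩
  intro z hz
  exact ridge_zeros h (by rintro rfl; simp at hd) ρ h3 z hz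

end Pool.Agent.Results.MP_98db6a_an.DominantZero
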