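import Pool.Agent.H55.LAM.Gen

open Filter Topology Pool.Agent.LAM55

namespace Pool.Agent.Results.MP_98db6a_an.TotallyMonotone

/-- For every multiplier sequence `γ` of positive terms the limit `σ ≥ 0` of `γ_{k+1}/γ_k` exists,
and if `σ > 0` then `1/γ_k` is a `λ`-sequence if and only if `σ^k/γ_k` is totally monotone (a
Hausdorff moment sequence). -/
theorem result (γ : ℕ → ℝ) (hγ : ∀ k, 0 < γ k) (hm : IsMultiplier γ) :
    ∃ σ : ℝ, 0 ≤ σ ∧ Tendsto (fun k => γ (k + 1) / γ k) atTop (𝓝 σ) ∧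
      (0 < σ → (IsLambda (fun k => 1 / γ k) ↔ ∀ n k : ℕ,
        0 ≤ ∑ i ∈ Finset.range (n + 1), (-1) ^ i * (n.choose i : ℝ) * (σ ^ (k + i) / γ (k + i)))) :=
  general γ hγ hm

end Pool.Agent.Results.MP_98db6a_an.TotallyMonotone
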